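import Pool.Agent.H614.GV.Pat

/-!
# The Liouville function at products of affine functions, against arbitrary cylinder functions

Let `f(y) = ∏_j (φ_j(y) + b_j)` be a polynomial in `D` variables which is a product of affine functions with integer
coefficients. The values `λ(f(y))` are orthogonal to all the products of arbitrary bounded functions `F_i`, each of which
is invariant under the translations by one vector `v_i`; in the same sense the sign patterns of the `λ(φ_j(y) + b_j)` are
equidistributed, for instance on the configurations `x + n w_i` in an ARBITRARY set of points of `ℤ^d`.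

From the starting files: the case without the functions `F_i` (`Pool.Graph.R_pool_sql_team_seeded_63374d34`); the
calculus of the sets of logarithmic density zero (`Pool.Agent.Y958.U`). From Mathlib: `ArithmeticFunction.cardFactors n`,
the number of the prime factors of `n` with multiplicity; `Fin.cons`, `Fin.tail`: vectors with a first coordinate.
-/

set_option autoImplicit false

namespace Pool.Agent.Results.MP_892e4c_nt.CylinderFunctions

open Finset Filter Topology

/-- The Liouville function of `|m|`, with value `1` at `m = 0`. -/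
noncomputable def lam (m : ℤ) : ℝ := (-1) ^ ArithmeticFunction.cardFactors m.natAbs

/-- The product of the integer vectors `φ` and `v`. -/
def dot {D : ℕ} (φ v : Fin D → ℤ) : ℤ := ∑ s, φ s * v s

/-- The vectors `φ` and `ψ` are parallel. -/
def Parallel {D : ℕ} (φ ψ : Fin D → ℤ) : Prop := ∀ s s', φ s * ψ s' = φ s' * ψ s

open Classical in
/-- The number of the forms `φ_i` which are parallel to `φ_j` (with `φ_j` itself). -/
noncomputable def classSize {k D : ℕ} (φ : Fin k → Fin D → ℤ) (j : Fin k) : ℕ :=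
  (univ.filter fun i => Parallel (φ i) (φ j)).card

/-- The affine functions `φ_i + b_i` and `φ_j + b_j` are not proportional. -/
def NotProportional {k D : ℕ} (φ : Fin k → Fin D → ℤ) (b : Fin k → ℤ) (i j : Fin k) : Prop :=
  ¬ Parallel (φ i) (φ j) ∨ ∃ s, φ i s * b j ≠ φ j s * b i

/-- The product of the values `λ(φ_j(y) + b_j)`; it is `λ(f(y))` for the polynomial `f = ∏_j (φ_j + b_j)`, unless
`f(y) = 0`. -/
noncomputable def value {k D : ℕ} (φ : Fin k → Fin D → ℤ) (b : Fin k → ℤ) (y : Fin D → ℤ) : ℝ :=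
  ∏ j, lam (dot (φ j) y + b j)

open Classical in
/-- The indicator function of the set of the points with `λ(φ_j(y) + b_j) = σ_j` for all `j`. -/
noncomputable def pattern {k D : ℕ} (φ : Fin k → Fin D → ℤ) (b : Fin k → ℤ) (σ : Fin k → ℝ) (y : Fin D → ℤ) : ℝ :=
  if ∀ j, lam (dot (φ j) y + b j) = σ j then 1 else 0

/-- The box `∏ (u s, u s + B s]`. -/
noncomputable def box {D : ℕ} (u : Fin D → ℤ) (B : Fin D → ℕ) : Finset (Fin D → ℤ) :=
  Fintype.piFinset fun s => Ioc (u s) (u s + B s)

/-- The box lies in a cube of side `3 R N` around the origin. -/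
def InCube {D : ℕ} (R N : ℕ) (u : Fin D → ℤ) (B : Fin D → ℕ) : Prop := ∀ s, |u s| ≤ (R : ℤ) * N ∧ B s ≤ R * N

/-- The functions `F_i` are bounded by `1`, and `F_i` is invariant under the translations by `v_i`. -/
def Cylinder {D t : ℕ} (v : Fin t → Fin D → ℤ) (F : Fin t → (Fin D → ℤ) → ℝ) : Prop :=
  (∀ i y, |F i y| ≤ 1) ∧ ∀ i y, F i (y + v i) = F i y

open Classical in
/-- The set `E` has logarithmic density zero. -/
def LogNull (E : Set ℕ) : Prop :=
  Tendsto (fun X : ℕ => (∑ n ∈ Icc 1 X, if n ∈ E then (1 : ℝ) / n else 0) / Real.log X) atTop (𝓝 0)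

/-- The points `(n, x)` of the cube `[1, N]^(d+1)` such that all the points `x + n w_i` lie in the set `A`. -/
def Config {d t : ℕ} (N : ℕ) (w : Fin t → Fin d → ℤ) (A : Set (Fin d → ℤ)) (y : Fin (d + 1) → ℤ) : Prop :=
  (∀ s, 1 ≤ y s ∧ y s ≤ N) ∧ ∀ i, Fin.tail y + y 0 • w i ∈ A

lemma dot_eq {D : ℕ} (φ v : Fin D → ℤ) : dot φ v = Pool.Agent.H614.GV.dot φ v := rfl

lemma class_eq {k D : ℕ} (φ : Fin k → Fin D → ℤ) (j : Fin k) :
    (Pool.Agent.Results.MP_a14ce1_nt.FixedShiftPatterns.cls φ j).card = classSize φ j := by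
  classical
  unfold classSize
  apply congrArg Finset.card
  ext i
  unfold Pool.Agent.Results.MP_a14ce1_nt.FixedShiftPatterns.cls
  rw [mem_filter, mem_filter]
  exact Iff.rfl

lemma np_eq {k D : ℕ} (φ : Fin k → Fin D → ℤ) (b : Fin k → ℤ) (i j : Fin k) :
    NotProportional φ b i j ↔ Pool.Agent.Results.MP_a14ce1_nt.FixedShiftPatterns.NotProp φ b i j := by
  unfold NotProportional Pool.Agent.Results.MP_a14ce1_nt.FixedShiftPatterns.NotProp Parallel
  simp only [not_forall, ne_eq]

lemma pattern_eq {k D : ℕ} (φ : Fin k → Fin D → ℤ) (b : Fin k → ℤ) (σ : Fin k → ℝ) (y : Fin D → ℤ) :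
    pattern φ b σ y = Pool.Agent.H614.GV.iP φ b σ y := by
  unfold pattern Pool.Agent.H614.GV.iP
  by_cases h : ∀ j, lam (dot (φ j) y + b j) = σ j
  · have h' : Pool.Agent.H614.GV.Pt φ b σ y := h
    rw [if_pos h, if_pos h']
  · have h' : ¬ Pool.Agent.H614.GV.Pt φ b σ y := h
    rw [if_neg h, if_neg h']

lemma sum_config {d t : ℕ} (N : ℕ) (w : Fin t → Fin d → ℤ) (A : Set (Fin d → ℤ)) (g : (Fin (d + 1) → ℤ) → ℝ) :
    ∑ y ∈ box (fun _ => 0) (fun _ => N), g y * ∏ i : Fin t, Set.indicator A (fun _ => (1 : ℝ)) (Fin.tail y + y 0 • w i) =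
      ∑ᶠ y ∈ {y | Config N w A y}, g y := by
  classical
  have h1 : {y | Config N w A y} = (((box (fun _ : Fin (d + 1) => 0) (fun _ => N)).filter fun y => ∀ i : Fin t,
      Fin.tail y + y 0 • w i ∈ A : Finset (Fin (d + 1) → ℤ)) : Set (Fin (d + 1) → ℤ)) := by
    ext y
    simp only [Set.mem_ofPred_eq, coe_filter, Config, box, Fintype.mem_piFinset, mem_Ioc, zero_add]
    constructor
    · rintro ⟨h1, h2⟩
      exact ⟨fun s => ⟨by have := h1 s; omega, (h1 s).2⟩, h2⟩
    · rintro ⟨h1, h2⟩
      exact ⟨fun s => ⟨by have := h1 s; omega, (h1 s).2⟩, h2⟩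
  rw [h1, finsum_mem_coe_finset, sum_filter]
  refine sum_congr rfl fun y _ => ?_
  split_ifs with h
  · rw [prod_eq_one, mul_one]
    intro i _
    rw [Set.indicator_of_mem (h i)]
  · push Not at h
    obtain ⟨i, hi⟩ := h
    rw [prod_eq_zero (mem_univ i), mul_zero]
    rw [Set.indicator_of_notMem hi]

/-- There is a set `E` of integers of logarithmic density zero (the exceptional scales) such that for all affine
functions `φ_j + b_j`, `j < k`, in `D` variables with integer coefficients, `φ_j ≠ 0`, all vectors `v_1, …, v_t`, all `R`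
and all `ε > 0` the following holds for all sufficiently large `N` outside `E`.

(1) Let some class of parallel forms have an odd number of elements, or two elements which are not proportional as affine
functions, and let `φ_j(v_i) ≠ 0` for the forms of this class and all `i`. Then for all boxes in the cube and ALL
functions `F_i`, bounded by `1`, which are invariant under the translations by `v_i`, the sum of the products
`λ(φ_1(y) + b_1) ⋯ λ(φ_k(y) + b_k) F_1(y) ⋯ F_t(y)` over the box is at most `ε N^D` in absolute value.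

(2) Let no two of the affine functions be proportional, let all the classes have at most three elements, and let
`φ_j(v_i) ≠ 0` for all `i, j`. Then for every pattern of signs `σ` the sum of
`(1_{λ(φ_j(y) + b_j) = σ_j for all j} - 2^(-k)) F_1(y) ⋯ F_t(y)` is at most `ε N^D` in absolute value, uniformly in the
box, in `σ` and in the functions `F_i`.

(3) In particular, let `D = d + 1`, write `y = (n, x)`, and let `w_1, …, w_t` be vectors of `ℤ^d` such that no affine
function `φ_j + b_j` is constant along the lines of the direction `(1, - w_i)`. Then all the sign patterns are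
equidistributed, up to `ε N^(d + 1)`, on the set of the `(n, x)` in `[1, N]^(d+1)` with `x + n w_i ∈ A` for all `i`,
uniformly in the ARBITRARY set `A`. -/
theorem result : ∃ E : Set ℕ, LogNull E ∧
    (∀ (D k t : ℕ) (φ : Fin k → Fin D → ℤ) (b : Fin k → ℤ) (v : Fin t → Fin D → ℤ), (∀ j, φ j ≠ 0) →
      (∀ j₀ : Fin k, (Odd (classSize φ j₀) ∨ (classSize φ j₀ = 2 ∧ ∃ i, Parallel (φ i) (φ j₀) ∧
          NotProportional φ b i j₀)) → (∀ i, dot (φ j₀) (v i) ≠ 0) →
        ∀ (R : ℕ) (ε : ℝ), 0 < ε → ∃ N₀ : ℕ, ∀ N : ℕ, N₀ ≤ N → N ∉ E → ∀ u B F, InCube R N u B → Cylinder v F →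
          |∑ y ∈ box u B, value φ b y * ∏ i, F i y| ≤ ε * (N : ℝ) ^ D) ∧
      ((∀ i j, i ≠ j → NotProportional φ b i j) → (∀ j, classSize φ j ≤ 3) → (∀ j i, dot (φ j) (v i) ≠ 0) →
        ∀ (R : ℕ) (ε : ℝ), 0 < ε → ∃ N₀ : ℕ, ∀ N : ℕ, N₀ ≤ N → N ∉ E → ∀ u B F, InCube R N u B → Cylinder v F →
          ∀ σ : Fin k → ℝ, (∀ j, σ j = 1 ∨ σ j = -1) →
          |∑ y ∈ box u B, (pattern φ b σ y - 1 / 2 ^ k) * ∏ i, F i y| ≤ ε * (N : ℝ) ^ D)) ∧
    (∀ (d k t : ℕ) (φ : Fin k → Fin (d + 1) → ℤ) (b : Fin k → ℤ) (w : Fin t → Fin d → ℤ), (∀ j, φ j ≠ 0) →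
      (∀ i j, i ≠ j → NotProportional φ b i j) → (∀ j, classSize φ j ≤ 3) →
      (∀ j i, φ j 0 ≠ dot (Fin.tail (φ j)) (w i)) →
        ∀ ε : ℝ, 0 < ε → ∃ N₀ : ℕ, ∀ N : ℕ, N₀ ≤ N → N ∉ E → ∀ (A : Set (Fin d → ℤ)) (σ : Fin k → ℝ),
          (∀ j, σ j = 1 ∨ σ j = -1) →
          |({y | Config N w A y ∧ ∀ j, lam (dot (φ j) y + b j) = σ j}.ncard : ℝ) -
            (1 / 2 ^ k) * ({y | Config N w A y}.ncard : ℝ)| ≤ ε * (N : ℝ) ^ (d + 1)) := by
  classical
  obtain ⟨E, hE, h1⟩ := Pool.Agent.H614.GV.single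
  have hpat := fun D k t φ b v hφ hnp h3 hv => Pool.Agent.H614.GV.patterns (E := E) h1 D k t φ b v hφ hnp h3 hv
  refine ⟨E, hE, fun D k t φ b v hφ => ⟨fun j₀ hg hv R ε hε => ?_, fun hnp h3 hv R ε hε => ?_⟩,
    fun d k t φ b w hφ hnp h3 hw ε hε => ?_⟩
  · obtain ⟨N₀, hN₀⟩ := h1 D k t φ b v j₀ hφ (by
      unfold Pool.Agent.H614.GV.GoodAt
      rw [class_eq]
      rcases hg with h | ⟨h, i, hi, hi2⟩
      · exact Or.inl h
      · refine Or.inr ⟨h, i, ?_, (np_eq φ b i j₀).1 hi2⟩
        unfold Pool.Agent.Results.MP_a14ce1_nt.FixedShiftPatterns.cls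
        rw [mem_filter]
        exact ⟨mem_univ _, hi⟩) hv R ε hε
    exact ⟨N₀, fun N hN hNE u B F hu hF => hN₀ N hN hNE u B F hu hF.1 hF.2⟩
  · obtain ⟨N₀, hN₀⟩ := hpat D k t φ b v hφ (fun i j hij => (np_eq φ b i j).1 (hnp i j hij))
      (fun j => by rw [class_eq]; exact h3 j) hv R ε hε
    refine ⟨N₀, fun N hN hNE u B F hu hF σ hσ => ?_⟩
    simp only [pattern_eq]
    exact hN₀ N hN hNE u B F σ hu hF.1 hF.2 hσ
  · -- the configurations
    set v : Fin t → Fin (d + 1) → ℤ := fun i => Fin.cons 1 (-(w i)) with hv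
    obtain ⟨N₀, hN₀⟩ := hpat (d + 1) k t φ b v hφ (fun i j hij => (np_eq φ b i j).1 (hnp i j hij))
      (fun j => by rw [class_eq]; exact h3 j) (fun j i h => hw j i (by
        rw [hv] at h
        unfold Pool.Agent.H614.GV.dot at h
        rw [Fin.sum_univ_succ] at h
        simp only [Fin.cons_zero, Fin.cons_succ, Pi.neg_apply, mul_one, mul_neg, sum_neg_distrib] at h
        have e : dot (Fin.tail (φ j)) (w i) = ∑ s : Fin d, φ j s.succ * w i s := rfl
        rw [e]
        linarith)) 1 ε hε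
    refine ⟨N₀, fun N hN hNE A σ hσ => ?_⟩
    have h2 := hN₀ N hN hNE (fun _ => 0) (fun _ => N)
      (fun i y => Set.indicator A (fun _ => (1 : ℝ)) (Fin.tail y + y 0 • w i)) σ
      (fun s => ⟨by rw [abs_zero]; positivity, by rw [one_mul]⟩) (fun i y => by
        by_cases h : Fin.tail y + y 0 • w i ∈ A
        · rw [Set.indicator_of_mem h]; simp
        · rw [Set.indicator_of_notMem h]; simp) (fun i y => by
        congr 1
        rw [hv]
        funext s
        simp only [Fin.tail, Pi.add_apply, Fin.cons_zero, Fin.cons_succ, Pi.smul_apply, smul_eq_mul, Pi.neg_apply]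
        ring) hσ
    have e0 : (Pool.Agent.Results.MP_a14ce1_nt.FixedShiftPatterns.box (fun _ : Fin (d + 1) => (0 : ℤ)) fun _ => N) =
        box (fun _ => 0) (fun _ => N) := rfl
    rw [e0, sum_config N w A] at h2
    have hfin : {y | Config N w A y}.Finite := by
      refine ((box (fun _ : Fin (d + 1) => 0) (fun _ => N)) : Finset (Fin (d + 1) → ℤ)).finite_toSet.subset ?_
      intro y hy
      rw [mem_coe]
      unfold box
      rw [Fintype.mem_piFinset]
      intro s
      have := hy.1 s
      rw [mem_Ioc]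
      change (0 : ℤ) < y s ∧ y s ≤ 0 + (N : ℤ)
      omega
    have e1 : ∑ᶠ y ∈ {y | Config N w A y}, (Pool.Agent.H614.GV.iP φ b σ y - 1 / 2 ^ k) =
        ({y | Config N w A y ∧ ∀ j, lam (dot (φ j) y + b j) = σ j}.ncard : ℝ) -
            (1 / 2 ^ k) * ({y | Config N w A y}.ncard : ℝ) := by
      have e2 := finsum_mem_eq_finite_toFinset_sum (fun y => Pool.Agent.H614.GV.iP φ b σ y - 1 / 2 ^ k) hfin
      rw [e2, sum_sub_distrib, sum_const, nsmul_eq_mul, Set.ncard_eq_toFinset_card _ hfin]
      congr 1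
      · have hsub : {y | Config N w A y ∧ ∀ j, lam (dot (φ j) y + b j) = σ j} =
            ((hfin.toFinset.filter fun y => ∀ j, lam (dot (φ j) y + b j) = σ j : Finset (Fin (d + 1) → ℤ)) :
              Set (Fin (d + 1) → ℤ)) := by
          ext y
          simp
        rw [hsub, Set.ncard_coe_finset, card_filter]
        push_cast
        refine sum_congr rfl fun y _ => ?_
        rw [← pattern_eq]
        rfl
      · ring
    rw [e1] at h2
    exact h2

end Pool.Agent.Results.MP_892e4c_nt.CylinderFunctions
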