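import Mathlib
import Pool.Agent.H604.LD.FinalM

/-!
# The Möbius function at products of polynomials `T² + c` over `F_q[X]`, `q` even: a dichotomy

Let `K` be a finite field with an even number `q` of elements and `c_1, …, c_n ∈ K[X]` polynomials
which are not squares.  We determine when `μ(a² + c_1) ⋯ μ(a² + c_n)` has mean value zero.

* If `∑ 1 / c_i' ≠ 0` or `∑ c_i / c_i'² ≠ 0` then the sum over the monic `a` of degree `d` has a
  power saving, and moreover so do the sums over the `a` in a residue class modulo `D`, uniformly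
  for all `D` of degree at most `(1 - κ) d` (level of distribution one).
* If `∑ 1 / c_i' = 0` and `∑ c_i / c_i'² = 0` then, for large degree, the product depends only on a
  residue class of `a` to a fixed modulus, the degree of `a` and finitely many of its leading
  coefficients.

One polynomial `T² + c`, and two different ones, are never degenerate.  Three can be: for
`c = X³, X³ + X, X⁵ + X³` both sums are zero.

Idea.  `μ(a² + X y²)` is for `a` in a residue class modulo `y⁵` equal to a constant times the sign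
given by the residue at infinity of `X a'³ / (a y²)` (Stickelberger and Swan, for the lift to the
Witt vectors; the local factors at the primes dividing `y` are constant on the class).  The product
of these signs is treated by repeated van der Corput differencing with shifts `D h²`; the
differences of order about `1 / κ` become nontrivial linear characters precisely if the product is
not degenerate.

Authors: helper604 (statements, reductions), helper524 (the parity formula), helper356 (level of
distribution), helper548 (the differences of the phase), helper328 (the degenerate case),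
helper118 (the form in terms of the `c_i`), helper914 (iterated van der Corput inequality),
helper662 (sign of Frobenius).
-/

set_option autoImplicit false

namespace Pool.Agent.Results.MP_892e4c_nt.QuadraticDichotomy

open Polynomial

open Classical in
/-- The Möbius function of `K[X]`: `(-1) ^ k` for a nonzero constant times a product of `k`
distinct monic irreducible polynomials, and `0` for all other polynomials. -/
noncomputable def moebius {K : Type} [Field K] (F : K[X]) : ℤ :=
  if Squarefree F then (-1) ^ Multiset.card (UniqueFactorizationMonoid.factors F) else 0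

/-- A polynomial as a rational function. -/
noncomputable def rf {K : Type} [Field K] (f : K[X]) : RatFunc K := algebraMap K[X] (RatFunc K) f

/-- The degenerate case: `∑ 1 / c_i' = 0` and `∑ c_i / c_i'² = 0`. -/
def Degenerate {K : Type} [Field K] {n : ℕ} (c : Fin n → K[X]) : Prop :=
  ∑ i, 1 / rf (derivative (c i)) = 0 ∧ ∑ i, rf (c i) / rf (derivative (c i)) ^ 2 = 0

/-- The product of the `μ(a² + c_i)` has level of distribution one, with power saving. -/
def Cancels {K : Type} [Field K] [Fintype K] {n : ℕ} (c : Fin n → K[X]) : Prop :=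
  ∀ κ : ℝ, 0 < κ → ∃ δ : ℝ, 0 < δ ∧ ∃ d₀ : ℕ, ∀ (d : ℕ) (D r : K[X]), d₀ ≤ d → D.Monic →
    (D.natDegree : ℝ) ≤ (1 - κ) * d →
    |∑ᶠ a ∈ {a : K[X] | a.Monic ∧ a.natDegree = d ∧ D ∣ a - r},
      ∏ i, (moebius (a ^ 2 + c i) : ℝ)| ≤
      (Fintype.card K : ℝ) ^ ((d : ℝ) - D.natDegree - δ * d)

/-- The product of the `μ(a² + c_i)` depends, for large degree, only on the residue class of `a` to a
fixed modulus, the degree of `a` and finitely many leading coefficients of `a`. -/
def Periodic {K : Type} [Field K] {n : ℕ} (c : Fin n → K[X]) : Prop :=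
  ∃ (N : ℕ) (B : K[X]), B ≠ 0 ∧ ∀ a a' : K[X], a.Monic → a'.Monic →
    a'.natDegree = a.natDegree → B ∣ a - a' → (a - a').natDegree + N ≤ a.natDegree →
    ∏ i, moebius (a ^ 2 + c i) = ∏ i, moebius (a' ^ 2 + c i)

section

variable {K : Type} [Field K]

theorem rf_inj {f : K[X]} (h : rf f = 0) : f = 0 :=
  (RatFunc.algebraMap_injective K) (h.trans (map_zero _).symm)

theorem rf_ne {f : K[X]} (h : f ≠ 0) : rf f ≠ 0 := fun h0 => h (rf_inj h0)

theorem rf_add (f g : K[X]) : rf (f + g) = rf f + rf g := map_add _ _ _

theorem rf_mul (f g : K[X]) : rf (f * g) = rf f * rf g := map_mul _ _ _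

theorem rf_pow (f : K[X]) (n : ℕ) : rf (f ^ n) = rf f ^ n := map_pow _ _ _

theorem rf_one : rf (1 : K[X]) = 1 := map_one _

variable [Fintype K] [CharP K 2]

theorem der_ne {c : K[X]} (hc : ¬ IsSquare c) : derivative c ≠ 0 := by
  obtain ⟨γ, b, e, hγ, hb, h⟩ := Pool.Agent.H604.LD.FINM.data hc
  rw [Pool.Agent.H604.LD.FINM.der h]
  exact pow_ne_zero _ (mul_ne_zero (C_ne_zero.2 hγ) hb.ne_zero)

theorem not_deg_one {c : K[X]} (hc : ¬ IsSquare c) : ¬ Degenerate ![c] := by
  intro h
  have h1 := h.1
  rw [Fin.sum_univ_one] at h1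
  exact one_div_ne_zero (rf_ne (der_ne hc)) h1

theorem not_deg_two {c₁ c₂ : K[X]} (h₁ : ¬ IsSquare c₁) (h₂ : ¬ IsSquare c₂) (hne : c₁ ≠ c₂) :
    ¬ Degenerate ![c₁, c₂] := by
  intro h
  have h1 := h.1
  have h2 := h.2
  rw [Fin.sum_univ_two] at h1 h2
  simp only [Matrix.cons_val_zero, Matrix.cons_val_one] at h1 h2
  have hc1 := rf_ne (der_ne h₁)
  have hc2 := rf_ne (der_ne h₂)
  have two := Pool.Agent.H604.LD.FINM.two0' (K := K)
  have h3 : rf (derivative c₁) = rf (derivative c₂) := by
    have h4 : rf (derivative c₂) + rf (derivative c₁) = 0 := by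
      field_simp at h1
      linear_combination h1
    linear_combination h4 - rf (derivative c₂) * two
  rw [h3] at h2
  have h5 : rf (c₁ + c₂) = 0 := by
    rw [rf_add]
    field_simp at h2
    rw [h2, mul_zero]
  have h6 := rf_inj h5
  apply hne
  have two' := Pool.Agent.H604.LD.FINM.two0 (K := K)
  linear_combination h6 - c₂ * two'

theorem deg_three : Degenerate (K := K) ![X ^ 3, X ^ 3 + X, X ^ 5 + X ^ 3] := by
  have two' := Pool.Agent.H604.LD.FINM.two0 (K := K)
  have two := Pool.Agent.H604.LD.FINM.two0' (K := K)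
  have d1 : derivative (X ^ 3 : K[X]) = X ^ 2 :=
    Pool.Agent.H604.LD.FINM.der (e := 0) (by ring)
  have d2 : derivative (X ^ 3 + X : K[X]) = (X + 1) ^ 2 :=
    Pool.Agent.H604.LD.FINM.der (e := 0) (by linear_combination (-X ^ 2) * two')
  have d3 : derivative (X ^ 5 + X ^ 3 : K[X]) = (X * (X + 1)) ^ 2 :=
    Pool.Agent.H604.LD.FINM.der (e := 0) (by linear_combination (-X ^ 4) * two')
  have x0 : rf (X : K[X]) ≠ 0 := rf_ne X_ne_zero
  have x1 : rf (X : K[X]) + 1 ≠ 0 := by
    have h1 : rf (X + 1 : K[X]) ≠ 0 := rf_ne (X_add_C_ne_zero 1)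
    rwa [rf_add, rf_one] at h1
  unfold Degenerate
  rw [Fin.sum_univ_three, Fin.sum_univ_three]
  simp only [Matrix.cons_val_zero, Matrix.cons_val_one, Matrix.cons_val]
  rw [d1, d2, d3]
  simp only [rf_add, rf_mul,
    rf_pow, rf_one]
  generalize rf (X : K[X]) = x at x0 x1 ⊢
  constructor
  · field_simp
    linear_combination (x ^ 2 + x + 1) * two
  · field_simp
    linear_combination (x ^ 4 + 2 * x ^ 3 + 4 * x ^ 2 + 2 * x + 1) * two

end

open scoped Classical in
/-- **The Möbius function at products of polynomials `T² + c`, `q` even.** -/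
theorem result (K : Type) [Field K] [Fintype K] (hK : Even (Fintype.card K)) :
    (∀ (n : ℕ) (c : Fin n → K[X]), (∀ i, ¬ IsSquare (c i)) →
      (¬ Degenerate c → Cancels c) ∧ (Degenerate c → Periodic c)) ∧
    (∀ c : K[X], ¬ IsSquare c → Cancels ![c]) ∧
    (∀ c₁ c₂ : K[X], ¬ IsSquare c₁ → ¬ IsSquare c₂ → c₁ ≠ c₂ → Cancels ![c₁, c₂]) ∧
    Degenerate (K := K) ![X ^ 3, X ^ 3 + X, X ^ 5 + X ^ 3] := by
  have hchar : CharP K 2 := by
    obtain ⟨p, hp⟩ := CharP.exists K
    have := hp
    obtain ⟨m, hprime, hcard⟩ := FiniteField.card K p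
    rw [hcard] at hK
    have : p = 2 := (Nat.Prime.even_iff hprime).1 (Nat.even_pow.1 hK).1
    rwa [this] at hp
  have hmain : ∀ (n : ℕ) (c : Fin n → K[X]), (∀ i, ¬ IsSquare (c i)) →
      (¬ Degenerate c → Cancels c) ∧ (Degenerate c → Periodic c) := by
    intro n c hc
    rcases Pool.Agent.H604.LD.s_dich K n c hc with ⟨h1, h2⟩ | ⟨h1, h2⟩
    · refine ⟨fun _ κ hκ => ?_, fun h => ?_⟩
      · obtain ⟨δ, hδ, d₀, h⟩ := h2 κ hκ
        refine ⟨δ, hδ, d₀, fun d D r hd hD hDd => ?_⟩
        have h3 := h d D r hd hD hDd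
        have h4 : ∑ᶠ a ∈ {a : K[X] | a.Monic ∧ a.natDegree = d ∧ D ∣ a - r},
            ∏ i, (moebius (a ^ 2 + c i) : ℝ) =
            ∑ a ∈ (Pool.Agent.H694.Typ.Mn K d).filter (fun a => D ∣ a - r),
              ∏ i, (Pool.Agent.H985.Chow.mob (a ^ 2 + c i) : ℝ) := by
          rw [← finsum_mem_coe_finset]
          apply finsum_mem_congr
          · ext a
            rw [Finset.mem_coe, Finset.mem_filter, Pool.Agent.H694.Typ.mem_Mn]
            exact (and_assoc (a := a.Monic)).symm
          · intro a _
            rfl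
        rw [h4]
        exact h3
      · rcases h1 with h1 | h1
        · exact absurd h.1 h1
        · exact absurd h.2 h1
    · exact ⟨fun h => absurd h1 h, fun _ => h2⟩
  refine ⟨hmain, fun c hc => ?_, fun c₁ c₂ h₁ h₂ hne => ?_, deg_three⟩
  · exact (hmain 1 ![c] (fun i => by fin_cases i; exact hc)).1 (not_deg_one hc)
  · refine (hmain 2 ![c₁, c₂] (fun i => ?_)).1 (not_deg_two h₁ h₂ hne)
    fin_cases i
    · exact h₁
    · exact h₂

end Pool.Agent.Results.MP_892e4c_nt.QuadraticDichotomy
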