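import Mathlib
import Pool.Agent.H568.Qa8

/-!
# The Liouville function at quadratic polynomials, for almost all constant terms in families of size `x^(1/2+δ)`

Let `a ≠ 0` and `b` be fixed. For almost all constant terms `|c| ≤ C` the sums of `λ(a n² + b n + c)` over `n ≤ x` are
`o(x)` if `C ≥ x^(5/6+ε)` (library, `N792`, `MP_d639b3_nt.ThinConstantTerms`). Here is a nontrivial bound for all
`C ≥ x^(1/2+δ)`, `δ > 0` arbitrary: for 100 percent of the `|c| ≤ C` (both signs)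
the sums over all intervals in `[-x, x]` and all residue classes to bounded moduli are at most
`(1 - log (1 / (1 - δ)) / 2) #{n} + τ x`. The same for 100 percent of the pairs of integers `|b|, |c| ≤ H` and all
lengths `N` with `H² ≤ N`, `N^(1/2+δ) ≤ H²`, that is, up to `N = H^(4-ε)` (the values are then of size `N²`, nearly
`H^8`).

Proof. Let `U = x^(1-δ+ε)` and `y = x^(1-ε)`. A value `v ≤ A x²` has at most two prime divisors in `(U, y]`, as `U³ > v`;
let `P(v)` be their number. Then `λ(v) = λ(v) (1 - P(v) / 2) + (1 / 2) ∑ λ(v)`, the sum over these primes `p`, and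
`λ(v) = -λ(v / p)`: the second part is a type II sum with the divisors `p` in the range `(U, y]`, which is accessible on
average over `c ≤ C` for `C U ≥ x^(3/2+ε)` (the estimate of the library for `C ≥ x^(3/5)` holds for `C ≥ x^(1/2+ε)`), as `λ` has
small sums in progressions. The first part is at most `∑ (1 - P(v) / 2)`, and the mean value of `P` is
`∑ ρ(p) / p`, which is `log ((1 - ε) / (1 - δ + ε))` for almost all `c` by the average over `c ≤ C` of the number of the
roots modulo the primes `p ≤ x`, `C ≥ x^(1/2+ε)`, and by the theorem of Mertens. Everything is uniform in `b² ≤ Λ C`.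
The residue classes are obtained from the polynomials with the leading coefficients `a q²`; completing the square, the
negative constant terms and the pairs `(b, c)` are in families of this kind.
-/

set_option autoImplicit false

namespace Pool.Agent.Results.MP_892e4c_nt.ThinFamiliesHalfExponent

open Finset Filter Topology

/-- the Liouville function on the integers, with `λ(0) = 0` -/
noncomputable def lio (m : ℤ) : ℝ := if m = 0 then 0 else (-1 : ℝ) ^ (ArithmeticFunction.cardFactors m.natAbs)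

/-- for all moduli `q ≤ Q`, all residue classes and all intervals `[u, v] ⊆ [-x, x]` the sum of `λ(a n² + b n + c)` is at
most `κ #{n} + E` -/
def Bounded (a b c : ℤ) (Q x : ℕ) (κ E : ℝ) : Prop := ∀ q : ℕ, 1 ≤ q → q ≤ Q → ∀ r u v : ℤ, -(x : ℤ) ≤ u → v ≤ x →
  |∑ n ∈ (Icc u v).filter (fun n : ℤ => n ≡ r [ZMOD q]), lio (a * n ^ 2 + b * n + c)| ≤
    κ * #((Icc u v).filter (fun n : ℤ => n ≡ r [ZMOD q])) + E

/-- **Theorem.** Let `a ≠ 0`, `0 < δ ≤ 1 / 3`, `τ > 0` and `Q` be given. (1) For every `b`, all large `x` and all `C` with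
`x^(1/2+δ) ≤ C ≤ x`, all but at most `τ C` of the integers `|c| ≤ C` satisfy `Bounded` with
`κ = 1 - log (1 / (1 - δ)) / 2` and `E = τ x`. (2) For all large `H` and all `N` with `H² ≤ N` and `N^(1/2+δ) ≤ H²`, all but
at most `τ H²` of the pairs of integers `|b|, |c| ≤ H` satisfy `Bounded` with `x = N`, the same `κ` and `E = τ N`. -/
theorem result (a : ℤ) (ha : a ≠ 0) (δ τ : ℝ) (Q : ℕ) (hδ : 0 < δ) (hδ1 : δ ≤ 1 / 3) (hτ : 0 < τ) :
    (∀ b : ℤ, ∃ x0 : ℕ, ∀ x : ℕ, x0 ≤ x → ∀ C : ℕ, (x : ℝ) ^ (1 / 2 + δ) ≤ C → C ≤ x →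
      ∃ Ex ⊆ Icc (-(C : ℤ)) C, (#Ex : ℝ) ≤ τ * C ∧ ∀ c ∈ Icc (-(C : ℤ)) C, c ∉ Ex →
        Bounded a b c Q x (1 - Real.log (1 / (1 - δ)) / 2) (τ * x)) ∧
    (∃ H0 : ℕ, ∀ H : ℕ, H0 ≤ H → ∀ N : ℕ, H ^ 2 ≤ N → (N : ℝ) ^ (1 / 2 + δ) ≤ (H : ℝ) ^ 2 →
      ∃ Ex ⊆ Icc (-(H : ℤ)) H ×ˢ Icc (-(H : ℤ)) H, (#Ex : ℝ) ≤ τ * H ^ 2 ∧
        ∀ p ∈ Icc (-(H : ℤ)) H ×ˢ Icc (-(H : ℤ)) H, p ∉ Ex →
          Bounded a p.1 p.2 Q N (1 - Real.log (1 / (1 - δ)) / 2) (τ * N)) :=
  ⟨fun b => Pool.Agent.H568.finA1 a ha b δ τ Q hδ hδ1 hτ, Pool.Agent.H568.finA2 a ha δ τ Q hδ hδ1 hτ⟩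

end Pool.Agent.Results.MP_892e4c_nt.ThinFamiliesHalfExponent
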